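import Mathlib
import Pool.Agent.X317.NSQ.Pres

/-!
# Semigroups with two exponents: the presentation
-/

set_option autoImplicit false
set_option linter.all false

open Finset Pool.Agent.X317.NSQ

namespace Pool.Agent.X317.NSE

open Classical in
/-- the Hilbert series of a submonoid -/
noncomputable def Hs (S : AddSubmonoid ℕ) : PowerSeries ℤ :=
  PowerSeries.mk fun n => if n ∈ S then 1 else 0

theorem coeff_Hs_mem {S : AddSubmonoid ℕ} {n : ℕ} (h : n ∈ S) : PowerSeries.coeff n (Hs S) = 1 := by
  rw [Hs, PowerSeries.coeff_mk, if_pos h]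

theorem coeff_Hs_not {S : AddSubmonoid ℕ} {n : ℕ} (h : n ∉ S) : PowerSeries.coeff n (Hs S) = 0 := by
  rw [Hs, PowerSeries.coeff_mk, if_neg h]

/-- `1 - X ^ j` -/
noncomputable def os (j : ℕ) : PowerSeries ℤ := 1 - PowerSeries.X ^ j

theorem coeff_os_mul (j : ℕ) (f : PowerSeries ℤ) (n : ℕ) :
    PowerSeries.coeff n (os j * f) = PowerSeries.coeff n f -
      (if j ≤ n then PowerSeries.coeff (n - j) f else 0) := by
  rw [os, sub_mul, one_mul, map_sub, PowerSeries.coeff_X_pow_mul']

theorem os_ne_zero {j : ℕ} (hj : 0 < j) : os j ≠ 0 := by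
  intro h
  have h1 := congrArg (PowerSeries.coeff 0) h
  have h2 := coeff_os_mul j 1 0
  rw [mul_one, if_neg (by omega), sub_zero, h] at h2
  rw [PowerSeries.coeff_zero_eq_constantCoeff, map_zero] at h2
  simp at h2

/-- the geometric sum -/
noncomputable def geom (j m : ℕ) : PowerSeries ℤ := ∑ c ∈ range m, PowerSeries.X ^ (c * j)

theorem geom_mul (j m : ℕ) : geom j m * os j = os (j * m) := by
  unfold geom os
  have h1 : ∀ c ∈ range m, (PowerSeries.X : PowerSeries ℤ) ^ (c * j) = (PowerSeries.X ^ j) ^ c := by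
    intro c _
    rw [← pow_mul, mul_comm]
  rw [Finset.sum_congr rfl h1, geom_sum_mul_neg, ← pow_mul]

/-- supported on a submonoid -/
def Sup (T : AddSubmonoid ℕ) (f : PowerSeries ℤ) : Prop := ∀ n, n ∉ T → PowerSeries.coeff n f = 0

theorem Sup_one (T : AddSubmonoid ℕ) : Sup T 1 := by
  intro n hn
  rw [PowerSeries.coeff_one, if_neg]
  rintro rfl
  exact hn T.zero_mem

theorem Sup_os_mul {T : AddSubmonoid ℕ} {j : ℕ} (hj : j ∈ T) {f : PowerSeries ℤ} (hf : Sup T f) :
    Sup T (os j * f) := by
  intro n hn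
  rw [coeff_os_mul, hf n hn]
  split_ifs with h
  · rw [hf (n - j), sub_zero]
    intro h1
    apply hn
    have := T.add_mem hj h1
    rwa [Nat.add_sub_cancel' h] at this
  · rw [sub_zero]

theorem Sup_os_pow_mul {T : AddSubmonoid ℕ} {j : ℕ} (hj : j ∈ T) {f : PowerSeries ℤ} (hf : Sup T f)
    (m : ℕ) : Sup T (os j ^ m * f) := by
  induction m with
  | zero => rwa [pow_zero, one_mul]
  | succ m ih =>
    rw [pow_succ', mul_assoc]
    exact Sup_os_mul hj ih

theorem coeff_lt (j m : ℕ) (f : PowerSeries ℤ) {n : ℕ} (h : n < j) :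
    PowerSeries.coeff n (os j ^ m * f) = PowerSeries.coeff n f := by
  induction m with
  | zero => rw [pow_zero, one_mul]
  | succ m ih => rw [pow_succ', mul_assoc, coeff_os_mul, if_neg (by omega), sub_zero, ih]

theorem coeff_self {j : ℕ} (hj : 0 < j) (m : ℕ) (f : PowerSeries ℤ) :
    PowerSeries.coeff j (os j ^ m * f) = PowerSeries.coeff j f - m * PowerSeries.coeff 0 f := by
  induction m with
  | zero => rw [pow_zero, one_mul, Nat.cast_zero, zero_mul, sub_zero]
  | succ m ih =>
    rw [pow_succ', mul_assoc, coeff_os_mul, if_pos le_rfl, ih, Nat.sub_self, coeff_lt j m f hj]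
    push_cast
    ring

theorem coeff_keep {S : AddSubmonoid ℕ} {a : ℕ} (ha : a ∈ S) {f : PowerSeries ℤ} (hf : Sup S f)
    (m : ℕ) {s : ℕ} (hs : ∀ t ∈ S, s ≠ a + t) :
    PowerSeries.coeff s (os a ^ m * f) = PowerSeries.coeff s f := by
  induction m with
  | zero => rw [pow_zero, one_mul]
  | succ m ih =>
    rw [pow_succ', mul_assoc, coeff_os_mul, ih]
    split_ifs with h
    · rw [Sup_os_pow_mul ha hf m (s - a), sub_zero]
      intro h1
      exact hs _ h1 (by omega)
    · rw [sub_zero]

section Box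

variable {I : Type} [Fintype I] [DecidableEq I] (n : I → ℕ)

/-- the value -/
def wt (c : I → ℕ) : ℕ := ∑ g, c g * n g

/-- the number of the elements of a box with a given value -/
def bx (m : I → ℕ) (s : ℕ) : Finset (I → ℕ) :=
  (Fintype.piFinset fun g => range (m g)).filter fun c => wt n c = s

theorem mem_bx {m : I → ℕ} {s : ℕ} {c : I → ℕ} :
    c ∈ bx n m s ↔ (∀ g, c g < m g) ∧ wt n c = s := by
  rw [bx, Finset.mem_filter, Fintype.mem_piFinset]
  simp only [Finset.mem_range]

theorem coeff_box (m : I → ℕ) (s : ℕ) :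
    PowerSeries.coeff s (∏ g, geom (n g) (m g)) = ((bx n m s).card : ℤ) := by
  unfold geom
  rw [Finset.prod_univ_sum, map_sum]
  have h1 : ∀ c ∈ Fintype.piFinset fun g => range (m g),
      PowerSeries.coeff s (∏ g, (PowerSeries.X : PowerSeries ℤ) ^ (c g * n g)) =
        if wt n c = s then 1 else 0 := by
    intro c _
    rw [Finset.prod_pow_eq_pow_sum, PowerSeries.coeff_X_pow]
    by_cases h : wt n c = s
    · rw [if_pos h, if_pos (show s = ∑ i, c i * n i from h.symm)]
    · rw [if_neg h, if_neg (show ¬ s = ∑ i, c i * n i from fun h' => h h'.symm)]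
  rw [Finset.sum_congr rfl h1, Finset.sum_boole]
  rfl

theorem wt_single (g : I) (k : ℕ) : wt n (Pi.single g k) = k * n g := by
  unfold wt
  rw [Finset.sum_eq_single g]
  · rw [Pi.single_eq_same]
  · intro h _ hne
    rw [Pi.single_eq_of_ne hne, zero_mul]
  · intro h
    exact absurd (Finset.mem_univ g) h

theorem wt_add (c d : I → ℕ) : wt n (c + d) = wt n c + wt n d := by
  unfold wt
  rw [← Finset.sum_add_distrib]
  exact Finset.sum_congr rfl fun g _ => by rw [Pi.add_apply, add_mul]

theorem wt_mem {S : AddSubmonoid ℕ} (hn : ∀ g, n g ∈ S) (c : I → ℕ) : wt n c ∈ S :=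
  S.sum_mem fun g _ => mul_mem' S (hn g) _

theorem le_wt (c : I → ℕ) (hn : ∀ g, 0 < n g) (g : I) : c g ≤ wt n c := by
  have h1 : c g * n g ≤ wt n c :=
    Finset.single_le_sum (f := fun g => c g * n g) (fun _ _ => Nat.zero_le _) (Finset.mem_univ g)
  have h2 : c g ≤ c g * n g := Nat.le_mul_of_pos_right _ (hn g)
  omega

end Box

section Core

variable {S : AddSubmonoid ℕ} {I : Type} [Fintype I] [DecidableEq I] {n : I → ℕ} {a b α β : ℕ}

/-- the counts -/
theorem counts (hn : ∀ g, n g ∈ S) (hn0 : ∀ g, 0 < n g)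
    (hH : Hs S * ∏ g, os (n g) = os a ^ α * os b ^ β) (ha : a ∈ S) (hb : b ∈ S)
    (hab : ∀ t ∈ S, b ≠ a + t) (hba : ∀ t ∈ S, a ≠ b + t) (hb0 : 0 < b) {M : ℕ} (hM : b < M) :
    (bx n (fun _ => M) b).card = β + 1 ∧
      ∀ g, n g ≤ b → (bx n (fun _ => M) (b - n g)).card ≤ 1 := by
  obtain ⟨F, hF⟩ : ∃ F, F = ∏ g, geom (n g) M := ⟨_, rfl⟩
  have hFS : Sup S F := by
    intro s hs
    rw [hF, coeff_box n (fun _ => M), Nat.cast_eq_zero, Finset.card_eq_zero,
      Finset.eq_empty_iff_forall_notMem]
    intro c hc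
    rw [mem_bx] at hc
    exact hs (hc.2 ▸ wt_mem n hn c)
  have h1 : Hs S * ∏ g, os (n g * M) = os a ^ α * (os b ^ β * F) := by
    have h2 : ∏ g, os (n g * M) = F * ∏ g, os (n g) := by
      rw [hF, ← Finset.prod_mul_distrib]
      exact Finset.prod_congr rfl fun g _ => (geom_mul _ _).symm
    rw [h2]
    calc Hs S * (F * ∏ g, os (n g)) = (Hs S * ∏ g, os (n g)) * F := by ring
      _ = _ := by rw [hH]; ring
  have h3 : ∀ s, s < M → ∀ T : Finset I,
      PowerSeries.coeff s ((∏ g ∈ T, os (n g * M)) * Hs S) = PowerSeries.coeff s (Hs S) := by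
    intro s hs T
    induction T using Finset.induction_on with
    | empty => rw [Finset.prod_empty, one_mul]
    | insert g T hg ih =>
      have h4 : s < n g * M := lt_of_lt_of_le hs (Nat.le_mul_of_pos_left _ (hn0 g))
      rw [Finset.prod_insert hg, mul_assoc, coeff_os_mul, if_neg (by omega), sub_zero, ih]
  have h4 : ∀ s, s < M → PowerSeries.coeff s (Hs S) =
      PowerSeries.coeff s (os a ^ α * (os b ^ β * F)) := by
    intro s hs
    rw [← h1, mul_comm, h3 s hs]
  have hSb : Sup S (os b ^ β * F) := Sup_os_pow_mul hb hFS β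
  have hcF : ∀ s, PowerSeries.coeff s F = ((bx n (fun _ => M) s).card : ℤ) := fun s => by
    rw [hF]
    exact coeff_box n (fun _ => M) s
  have hF0 : PowerSeries.coeff 0 F = 1 := by
    rw [hcF]
    have : bx n (fun _ => M) 0 = {0} := by
      ext c
      rw [mem_bx, Finset.mem_singleton]
      constructor
      · rintro ⟨_, hc⟩
        funext g
        have := le_wt n c hn0 g
        show c g = 0
        omega
      · rintro rfl
        refine ⟨fun g => ?_, ?_⟩
        · show 0 < M
          omega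
        · unfold wt
          exact Finset.sum_eq_zero fun g _ => by rw [Pi.zero_apply, zero_mul]
    rw [this, Finset.card_singleton, Nat.cast_one]
  constructor
  · have h5 := h4 b hM
    rw [coeff_Hs_mem hb, coeff_keep ha hSb α hab, coeff_self hb0, hF0, hcF, mul_one] at h5
    have : ((bx n (fun _ => M) b).card : ℤ) = β + 1 := by linarith
    exact_mod_cast this
  · intro g hg
    have hs : ∀ t ∈ S, b - n g ≠ a + t := by
      intro t ht h6
      exact hab (t + n g) (S.add_mem ht (hn g)) (by omega)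
    have hgp := hn0 g
    have h5 := h4 (b - n g) (by omega)
    rw [coeff_keep ha hSb α hs, coeff_lt b β F (by omega), hcF] at h5
    by_cases h6 : b - n g ∈ S
    · rw [coeff_Hs_mem h6] at h5
      have : (bx n (fun _ => M) (b - n g)).card = 1 := by exact_mod_cast h5.symm
      omega
    · rw [coeff_Hs_not h6] at h5
      have : (bx n (fun _ => M) (b - n g)).card = 0 := by exact_mod_cast h5.symm
      omega

/-- the number of the generators dividing `b` -/
theorem card_div (hn0 : ∀ g, 0 < n g) (hb0 : 0 < b) {M : ℕ} (hM : b < M) :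
    (univ.filter fun g => n g ∣ b).card ≤ (bx n (fun _ => M) b).card := by
  refine Finset.card_le_card_of_injOn (fun g => Pi.single g (b / n g)) ?_ ?_
  · intro g hg
    rw [Finset.mem_coe, Finset.mem_filter] at hg
    rw [Finset.mem_coe, mem_bx]
    refine ⟨fun h => ?_, ?_⟩
    · show (Pi.single g (b / n g) : I → ℕ) h < M
      have h1 : b / n g ≤ b := Nat.div_le_self _ _
      by_cases hgh : h = g
      · subst hgh
        rw [Pi.single_eq_same]
        omega
      · rw [Pi.single_eq_of_ne hgh]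
        omega
    · show wt n (Pi.single g (b / n g)) = b
      rw [wt_single, Nat.div_mul_cancel hg.2]
  · intro g hg h _ hgh
    rw [Finset.mem_coe, Finset.mem_filter] at hg
    by_contra hne
    have h1 := congrFun hgh g
    simp only at h1
    rw [Pi.single_eq_same, Pi.single_eq_of_ne hne] at h1
    have h2 := Nat.div_mul_cancel hg.2
    rw [h1, zero_mul] at h2
    omega

/-- **The presentation.** -/
theorem core (hn : ∀ g, n g ∈ S) (hn0 : ∀ g, 0 < n g)
    (hH : Hs S * ∏ g, os (n g) = os a ^ α * os b ^ β) (ha0 : 0 < a) (hb0 : 0 < b)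
    (hdiv : ∀ g, ¬ n g ∣ a → n g ∣ b) {M : ℕ} (hM : b < M)
    (hZb : (bx n (fun _ => M) b).card = β + 1)
    (hZg : ∀ g, n g ≤ b → (bx n (fun _ => M) (b - n g)).card ≤ 1)
    (hKa : (univ.filter fun g => n g ∣ a).card = α + 1) (hcard : Fintype.card I = α + β + 1) :
    ∃ σ : Finset ((I →₀ ℕ) × (I →₀ ℕ)), PresH (lcH n) (σ : Set _) ∧ σ.card + 1 ≤ Fintype.card I := by
  classical
  have hK' : (univ.filter fun g => ¬ n g ∣ a).card = β := by
    have := Finset.card_filter_add_card_filter_not (s := (univ : Finset I)) (fun g => n g ∣ a)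
    rw [Finset.card_univ] at this
    omega
  -- the factorisation of `b`
  obtain ⟨w0, hw0, hw0'⟩ : ∃ w0 ∈ bx n (fun _ => M) b,
      w0 ∉ (univ.filter fun g => ¬ n g ∣ a).image fun g => (Pi.single g (b / n g) : I → ℕ) := by
    apply Finset.exists_mem_notMem_of_card_lt_card
    have := Finset.card_image_le (s := univ.filter fun g => ¬ n g ∣ a)
      (f := fun g => (Pi.single g (b / n g) : I → ℕ))
    omega
  rw [mem_bx] at hw0
  have hw0K : ∀ g, ¬ n g ∣ a → w0 g = 0 := by
    intro g hg
    by_contra hne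
    have hgb := hdiv g hg
    have hgle : n g ≤ b := Nat.le_of_dvd hb0 hgb
    have hq : 1 ≤ b / n g := (Nat.one_le_div_iff (hn0 g)).2 hgle
    have hdm := Nat.div_mul_cancel hgb
    obtain ⟨w1, hw1⟩ : ∃ w1 : I → ℕ, w0 = w1 + Pi.single g 1 := by
      refine ⟨fun h => w0 h - (Pi.single g 1 : I → ℕ) h, ?_⟩
      funext h
      rw [Pi.add_apply]
      by_cases hgh : h = g
      · subst hgh
        rw [Pi.single_eq_same]
        omega
      · rw [Pi.single_eq_of_ne hgh]
        omega
    have h1 : w1 ∈ bx n (fun _ => M) (b - n g) := by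
      rw [mem_bx]
      have h2 := hw0.2
      rw [hw1, wt_add, wt_single, one_mul] at h2
      refine ⟨fun h => ?_, by omega⟩
      have h3 := hw0.1 h
      rw [hw1, Pi.add_apply] at h3
      omega
    have h2 : (Pi.single g (b / n g - 1) : I → ℕ) ∈ bx n (fun _ => M) (b - n g) := by
      rw [mem_bx, wt_single]
      refine ⟨fun h => ?_, ?_⟩
      · have h3 : b / n g ≤ b := Nat.div_le_self _ _
        by_cases hgh : h = g
        · subst hgh
          rw [Pi.single_eq_same]
          omega
        · rw [Pi.single_eq_of_ne hgh]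
          omega
      · rw [Nat.sub_mul, one_mul, hdm]
    have h3 := Finset.card_le_one.1 (hZg g hgle) _ h1 _ h2
    apply hw0'
    rw [Finset.mem_image]
    refine ⟨g, Finset.mem_filter.2 ⟨Finset.mem_univ g, hg⟩, ?_⟩
    rw [hw1, h3, ← Pi.single_add]
    congr 1
    omega
  obtain ⟨k0, hk0⟩ : ∃ k0, n k0 ∣ a := by
    obtain ⟨k0, hk0⟩ := Finset.card_pos.1 (by rw [hKa]; omega : 0 < (univ.filter fun g => n g ∣ a).card)
    exact ⟨k0, (Finset.mem_filter.1 hk0).2⟩
  -- the box
  obtain ⟨m, hm0, hma, hmb⟩ : ∃ m : I → ℕ, m k0 = 1 ∧ (∀ g, g ≠ k0 → n g ∣ a → n g * m g = a) ∧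
      ∀ g, ¬ n g ∣ a → n g * m g = b := by
    refine ⟨fun g => if g = k0 then 1 else if n g ∣ a then a / n g else b / n g, ?_, ?_, ?_⟩
    · simp only [if_true]
    · intro g hg hga
      simp only
      rw [if_neg hg, if_pos hga, Nat.mul_div_cancel' hga]
    · intro g hga
      have hg : g ≠ k0 := fun h => hga (h ▸ hk0)
      simp only
      rw [if_neg hg, if_neg hga, Nat.mul_div_cancel' (hdiv g hga)]
  have hbox : ∏ g, geom (n g) (m g) = os (n k0) * Hs S := by
    have h1 : (∏ g, geom (n g) (m g)) * ∏ g, os (n g) = (os (n k0) * Hs S) * ∏ g, os (n g) := by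
      rw [← Finset.prod_mul_distrib, Finset.prod_congr rfl fun g _ => geom_mul (n g) (m g),
        mul_assoc, hH, ← Finset.mul_prod_erase univ _ (Finset.mem_univ k0), hm0, mul_one]
      congr 1
      rw [← Finset.prod_filter_mul_prod_filter_not (univ.erase k0) (fun g => n g ∣ a)]
      congr 1
      · rw [Finset.prod_congr rfl (g := fun _ => os a), Finset.prod_const]
        · congr 1
          rw [Finset.filter_erase, Finset.card_erase_of_mem, hKa]
          · rfl
          · exact Finset.mem_filter.2 ⟨Finset.mem_univ _, hk0⟩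
        · intro g hg
          rw [Finset.mem_filter, Finset.mem_erase] at hg
          rw [hma g hg.1.1 hg.2]
      · rw [Finset.prod_congr rfl (g := fun _ => os b), Finset.prod_const]
        · congr 1
          rw [Finset.filter_erase, Finset.erase_eq_of_notMem, hK']
          rw [Finset.mem_filter]
          rintro ⟨-, h⟩
          exact h hk0
        · intro g hg
          rw [Finset.mem_filter] at hg
          rw [hmb g hg.2]
    refine mul_right_cancel₀ ?_ h1
    exact Finset.prod_ne_zero_iff.2 fun g _ => os_ne_zero (hn0 g)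
  have huniq : ∀ c, (∀ g, c g < m g) → (∀ t ∈ S, wt n c ≠ n k0 + t) ∧
      ∀ d, (∀ g, d g < m g) → wt n d = wt n c → d = c := by
    intro c hc
    have h1 := coeff_box n m (wt n c)
    rw [hbox, coeff_os_mul, coeff_Hs_mem (wt_mem n hn c)] at h1
    have h2 : 1 ≤ (bx n m (wt n c)).card := Finset.card_pos.2 ⟨c, (mem_bx n).2 ⟨hc, rfl⟩⟩
    have h3 : (if n k0 ≤ wt n c then PowerSeries.coeff (wt n c - n k0) (Hs S) else 0) = 0 ∧
        (bx n m (wt n c)).card = 1 := by
      have h4 : 0 ≤ (if n k0 ≤ wt n c then PowerSeries.coeff (wt n c - n k0) (Hs S) else 0) := by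
        split_ifs
        · by_cases h5 : wt n c - n k0 ∈ S
          · rw [coeff_Hs_mem h5]
            norm_num
          · rw [coeff_Hs_not h5]
        · exact le_rfl
      have h5 : (1 : ℤ) ≤ ((bx n m (wt n c)).card : ℤ) := by exact_mod_cast h2
      constructor
      · linarith
      · have : ((bx n m (wt n c)).card : ℤ) = 1 := by linarith
        exact_mod_cast this
    constructor
    · intro t ht h4
      have h5 := h3.1
      rw [if_pos (by omega)] at h5
      have h6 : wt n c - n k0 = t := by omega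
      rw [h6, coeff_Hs_mem ht] at h5
      exact one_ne_zero h5
    · intro d hd hdc
      exact Finset.card_le_one.1 h3.2.le _ ((mem_bx n).2 ⟨hd, hdc⟩) _ ((mem_bx n).2 ⟨hc, rfl⟩)
  -- uniqueness of the normal forms
  have hnf : ∀ c d : I → ℕ, (∀ g, g ≠ k0 → c g < m g) → (∀ g, g ≠ k0 → d g < m g) →
      wt n c = wt n d → c k0 ≤ d k0 → c = d := by
    intro c d hc hd hcd hle
    have hsplit : ∀ c : I → ℕ, (∀ g, g ≠ k0 → c g < m g) → ∃ c' : I → ℕ,
        c = c' + Pi.single k0 (c k0) ∧ ∀ g, c' g < m g := by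
      intro c hc
      refine ⟨Function.update c k0 0, ?_, ?_⟩
      · funext g
        rw [Pi.add_apply]
        by_cases hg : g = k0
        · subst hg
          rw [Function.update_self, Pi.single_eq_same, zero_add]
        · rw [Function.update_of_ne hg, Pi.single_eq_of_ne hg, add_zero]
      · intro g
        by_cases hg : g = k0
        · subst hg
          rw [Function.update_self, hm0]
          omega
        · rw [Function.update_of_ne hg]
          exact hc g hg
    obtain ⟨c', hc1, hc2⟩ := hsplit c hc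
    obtain ⟨d', hd1, hd2⟩ := hsplit d hd
    have h1 : wt n c = wt n c' + c k0 * n k0 := by
      conv_lhs => rw [hc1]
      rw [wt_add, wt_single]
    have h2 : wt n d = wt n d' + d k0 * n k0 := by
      conv_lhs => rw [hd1]
      rw [wt_add, wt_single]
    obtain ⟨e, he⟩ := Nat.exists_eq_add_of_le hle
    have h3 : wt n c' = wt n d' + e * n k0 := by
      rw [h1, h2, he, add_mul] at hcd
      omega
    rcases e with _ | e
    · rw [zero_mul, add_zero] at h3
      have h4 : c' = d' := (huniq d' hd2).2 c' hc2 h3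
      have h5 : c k0 = d k0 := by omega
      calc c = c' + Pi.single k0 (c k0) := hc1
        _ = d' + Pi.single k0 (d k0) := by rw [h4, h5]
        _ = d := hd1.symm
    · exfalso
      refine (huniq c' hc2).1 (wt n d' + e * n k0) ?_ ?_
      · exact S.add_mem (wt_mem n hn d') (mul_mem' S (hn k0) e)
      · rw [h3]
        ring
  have hnf' : ∀ c d : I → ℕ, (∀ g, g ≠ k0 → c g < m g) → (∀ g, g ≠ k0 → d g < m g) →
      wt n c = wt n d → c = d := by
    intro c d hc hd hcd
    rcases le_total (c k0) (d k0) with h | h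
    · exact hnf c d hc hd hcd h
    · exact (hnf d c hd hc hcd.symm h).symm
  -- the presentation
  obtain ⟨W, hW⟩ : ∃ W : I →₀ ℕ, ∀ g, W g = w0 g :=
    ⟨Finsupp.equivFunOnFinite.symm w0, fun g => rfl⟩
  obtain ⟨σ, hσ⟩ : ∃ σ : Finset ((I →₀ ℕ) × (I →₀ ℕ)), σ =
      ((univ.filter fun g => n g ∣ a).erase k0).image
        (fun g => (Finsupp.single g (m g), Finsupp.single k0 (a / n k0))) ∪
      (univ.filter fun g => ¬ n g ∣ a).image (fun g => (Finsupp.single g (m g), W)) := ⟨_, rfl⟩
  have hlc : ∀ c : I →₀ ℕ, lcH n c = wt n c := fun c => lcH_apply n c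
  have hσa : ∀ g, g ≠ k0 → n g ∣ a →
      (Finsupp.single g (m g), Finsupp.single k0 (a / n k0)) ∈ (σ : Set ((I →₀ ℕ) × (I →₀ ℕ))) := by
    intro g hg hga
    rw [hσ, Finset.mem_coe, Finset.mem_union, Finset.mem_image]
    exact Or.inl ⟨g, Finset.mem_erase.2 ⟨hg, Finset.mem_filter.2 ⟨Finset.mem_univ g, hga⟩⟩, rfl⟩
  have hσb : ∀ g, ¬ n g ∣ a →
      (Finsupp.single g (m g), W) ∈ (σ : Set ((I →₀ ℕ) × (I →₀ ℕ))) := by
    intro g hga
    rw [hσ, Finset.mem_coe, Finset.mem_union, Finset.mem_image, Finset.mem_image]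
    exact Or.inr ⟨g, Finset.mem_filter.2 ⟨Finset.mem_univ g, hga⟩, rfl⟩
  have hmpos : ∀ g, 0 < m g := by
    intro g
    rcases Nat.eq_zero_or_pos (m g) with h | h
    · exfalso
      by_cases hg : g = k0
      · rw [hg, hm0] at h
        omega
      · by_cases hga : n g ∣ a
        · have := hma g hg hga
          rw [h, mul_zero] at this
          omega
        · have := hmb g hga
          rw [h, mul_zero] at this
          omega
    · exact h
  have hsplit : ∀ (c : I →₀ ℕ) (g : I), m g ≤ c g → ∃ c' : I →₀ ℕ, c = Finsupp.single g (m g) + c' ∧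
      ∀ h, c' h = c h - (if h = g then m g else 0) := by
    intro c g hg
    refine ⟨c - Finsupp.single g (m g), ?_, ?_⟩
    · rw [add_tsub_cancel_of_le]
      intro h
      rw [Finsupp.single_apply]
      split_ifs with h1
      · rw [← h1]
        exact hg
      · exact Nat.zero_le _
    · intro h
      rw [Finsupp.tsub_apply, Finsupp.single_apply]
      by_cases h1 : h = g
      · rw [if_pos h1, if_pos h1.symm]
      · rw [if_neg h1, if_neg (fun h2 => h1 h2.symm)]
  -- phase 1
  have phase1 : ∀ (w : ℕ) (c : I →₀ ℕ), (∑ g ∈ univ.filter (fun g => ¬ n g ∣ a), c g) = w →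
      ∃ d, addConGen (fun x y => (x, y) ∈ (σ : Set ((I →₀ ℕ) × (I →₀ ℕ)))) c d ∧
        ∀ g, ¬ n g ∣ a → d g < m g := by
    intro w
    induction w using Nat.strong_induction_on with
    | _ w ih =>
      intro c hc
      by_cases h1 : ∀ g, ¬ n g ∣ a → c g < m g
      · exact ⟨c, AddCon.refl _ _, h1⟩
      push Not at h1
      obtain ⟨g, hga, hg⟩ := h1
      obtain ⟨c', hc', hc''⟩ := hsplit c g hg
      have h2 : (∑ h ∈ univ.filter (fun g => ¬ n g ∣ a), (W + c') h) < w := by
        rw [← hc]
        refine Finset.sum_lt_sum ?_ ⟨g, Finset.mem_filter.2 ⟨Finset.mem_univ g, hga⟩, ?_⟩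
        · intro h hh
          rw [Finset.mem_filter] at hh
          rw [Finsupp.add_apply, hW, hw0K h hh.2, zero_add, hc'']
          omega
        · rw [Finsupp.add_apply, hW, hw0K g hga, zero_add, hc'', if_pos rfl]
          have := hmpos g
          omega
      obtain ⟨d, hd, hd'⟩ := ih _ h2 (W + c') rfl
      refine ⟨d, AddCon.trans _ ?_ hd, hd'⟩
      rw [hc']
      exact AddCon.add _ (gen_of (hσb g hga)) (AddCon.refl _ c')
  have phase2 : ∀ (w : ℕ) (c : I →₀ ℕ), (∀ g, ¬ n g ∣ a → c g < m g) →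
      (∑ g ∈ (univ.filter (fun g => n g ∣ a)).erase k0, c g) = w →
      ∃ d, addConGen (fun x y => (x, y) ∈ (σ : Set ((I →₀ ℕ) × (I →₀ ℕ)))) c d ∧
        ∀ g, g ≠ k0 → d g < m g := by
    intro w
    induction w using Nat.strong_induction_on with
    | _ w ih =>
      intro c hcK hc
      by_cases h1 : ∀ g, g ≠ k0 → n g ∣ a → c g < m g
      · refine ⟨c, AddCon.refl _ _, fun g hg => ?_⟩
        by_cases hga : n g ∣ a
        · exact h1 g hg hga
        · exact hcK g hga
      push Not at h1
      obtain ⟨g, hg0, hga, hg⟩ := h1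
      obtain ⟨c', hc', hc''⟩ := hsplit c g hg
      have hs0 : ∀ h, h ≠ k0 → (Finsupp.single k0 (a / n k0) : I →₀ ℕ) h = 0 := by
        intro h hh
        rw [Finsupp.single_apply, if_neg (fun h2 => hh h2.symm)]
      have h2 : (∑ h ∈ (univ.filter (fun g => n g ∣ a)).erase k0,
          (Finsupp.single k0 (a / n k0) + c') h) < w := by
        rw [← hc]
        refine Finset.sum_lt_sum ?_ ⟨g, Finset.mem_erase.2
          ⟨hg0, Finset.mem_filter.2 ⟨Finset.mem_univ g, hga⟩⟩, ?_⟩
        · intro h hh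
          rw [Finset.mem_erase] at hh
          rw [Finsupp.add_apply, hs0 h hh.1, zero_add, hc'']
          omega
        · rw [Finsupp.add_apply, hs0 g hg0, zero_add, hc'', if_pos rfl]
          have := hmpos g
          omega
      obtain ⟨d, hd, hd'⟩ := ih _ h2 (Finsupp.single k0 (a / n k0) + c') (by
        intro h hh
        have hhk : h ≠ k0 := fun h3 => hh (h3 ▸ hk0)
        rw [Finsupp.add_apply, hs0 h hhk, zero_add, hc'']
        have := hcK h hh
        omega) rfl
      refine ⟨d, AddCon.trans _ ?_ hd, hd'⟩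
      rw [hc']
      exact AddCon.add _ (gen_of (hσa g hg0 hga)) (AddCon.refl _ c')
  have hker : ∀ x y, addConGen (fun x y => (x, y) ∈ (σ : Set ((I →₀ ℕ) × (I →₀ ℕ)))) x y →
      lcH n x = lcH n y := by
    intro x y hxy
    have h1 : addConGen (fun x y => (x, y) ∈ (σ : Set ((I →₀ ℕ) × (I →₀ ℕ)))) ≤
        AddCon.ker (lcH n) := by
      rw [AddCon.addConGen_le]
      intro x y hxy
      rw [hσ, Finset.mem_coe, Finset.mem_union, Finset.mem_image, Finset.mem_image] at hxy
      show lcH n x = lcH n y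
      rcases hxy with ⟨g, hg, h2⟩ | ⟨g, hg, h2⟩
      · rw [Finset.mem_erase, Finset.mem_filter] at hg
        have h3 : Finsupp.single g (m g) = x := congrArg Prod.fst h2
        have h4 : Finsupp.single k0 (a / n k0) = y := congrArg Prod.snd h2
        rw [← h3, ← h4, lcH_single, lcH_single, Nat.div_mul_cancel hk0, mul_comm,
          hma g hg.1 hg.2.2]
      · rw [Finset.mem_filter] at hg
        have h3 : Finsupp.single g (m g) = x := congrArg Prod.fst h2
        have h4 : W = y := congrArg Prod.snd h2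
        rw [← h3, ← h4, lcH_single, hlc, mul_comm, hmb g hg.2]
        have h5 : wt n W = wt n w0 := Finset.sum_congr rfl fun g _ => by rw [hW]
        rw [h5, hw0.2]
    exact h1 hxy
  refine ⟨σ, fun x y => ⟨hker x y, fun hxy => ?_⟩, ?_⟩
  · have hnorm : ∀ x : I →₀ ℕ, ∃ d,
        addConGen (fun x y => (x, y) ∈ (σ : Set ((I →₀ ℕ) × (I →₀ ℕ)))) x d ∧
          ∀ g, g ≠ k0 → d g < m g := by
      intro x
      obtain ⟨d, hd, hd'⟩ := phase1 _ x rfl
      obtain ⟨e, he, he'⟩ := phase2 _ d hd' rfl
      exact ⟨e, AddCon.trans _ hd he, he'⟩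
    obtain ⟨d, hd, hd'⟩ := hnorm x
    obtain ⟨e, he, he'⟩ := hnorm y
    have h1 : wt n d = wt n e := by
      rw [← hlc, ← hlc, ← hker _ _ hd, ← hker _ _ he, hxy]
    have h2 : d = e := DFunLike.coe_injective (hnf' d e hd' he' h1)
    rw [h2] at hd
    exact AddCon.trans _ hd (AddCon.symm _ he)
  · rw [hσ]
    have h1 : (((univ.filter fun g => n g ∣ a).erase k0).image
        (fun g => ((Finsupp.single g (m g), Finsupp.single k0 (a / n k0)) :
          (I →₀ ℕ) × (I →₀ ℕ)))).card ≤ α := by
      refine le_trans Finset.card_image_le ?_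
      have hk0m : k0 ∈ univ.filter (fun g => n g ∣ a) :=
        Finset.mem_filter.2 ⟨Finset.mem_univ _, hk0⟩
      rw [Finset.card_erase_of_mem hk0m, hKa]
      exact le_rfl
    have h2 : ((univ.filter fun g => ¬ n g ∣ a).image
        (fun g => ((Finsupp.single g (m g), W) : (I →₀ ℕ) × (I →₀ ℕ)))).card ≤ β := by
      refine le_trans Finset.card_image_le hK'.le
    have h3 := Finset.card_union_le (((univ.filter fun g => n g ∣ a).erase k0).image
        (fun g => ((Finsupp.single g (m g), Finsupp.single k0 (a / n k0)) :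
          (I →₀ ℕ) × (I →₀ ℕ)))) ((univ.filter fun g => ¬ n g ∣ a).image
        (fun g => ((Finsupp.single g (m g), W) : (I →₀ ℕ) × (I →₀ ℕ))))
    omega

end Core

end Pool.Agent.X317.NSE
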