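import Mathlib
import Pool.Agent.X317.NSE.Comb

/-!
# Exponent sequences of numerical semigroups
-/

set_option autoImplicit false
set_option linter.all false

open Finset Pool.Agent.X317.NSQ

namespace Pool.Agent.X317.NSE

/-- `e` is the exponent sequence of `S`: `(1 - X) H_S(X) = ∏_{j ≥ 1} (1 - X ^ j) ^ (e j)`, the factors
with negative exponents being moved to the left side, modulo all powers of `X`. -/
def IsExp (S : AddSubmonoid ℕ) (e : ℕ → ℤ) : Prop :=
  ∀ N n : ℕ, n ≤ N →
    PowerSeries.coeff n ((1 - PowerSeries.X) * Hs S * ∏ j ∈ Icc 1 N, os j ^ (-(e j)).toNat) =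
    PowerSeries.coeff n (∏ j ∈ Icc 1 N, os j ^ (e j).toNat)

theorem coeff_zero_os_mul {j : ℕ} (hj : 0 < j) (m : ℕ) (f : PowerSeries ℤ) :
    PowerSeries.coeff 0 (os j ^ m * f) = PowerSeries.coeff 0 f := coeff_lt j m f hj

theorem coeff_zero_prod (J : Finset ℕ) (hJ : ∀ j ∈ J, 0 < j) (m : ℕ → ℕ) :
    PowerSeries.coeff 0 (∏ j ∈ J, os j ^ m j) = 1 := by
  induction J using Finset.induction_on with
  | empty => rw [Finset.prod_empty, PowerSeries.coeff_zero_one]
  | insert i J hi ih =>
    rw [Finset.prod_insert hi, coeff_zero_os_mul (hJ i (Finset.mem_insert_self _ _)),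
      ih fun j hj => hJ j (Finset.mem_insert_of_mem hj)]

theorem Sup_prod {T : AddSubmonoid ℕ} (J : Finset ℕ) (m : ℕ → ℕ) (h : ∀ j ∈ J, m j ≠ 0 → j ∈ T) :
    Sup T (∏ j ∈ J, os j ^ m j) := by
  induction J using Finset.induction_on with
  | empty =>
    rw [Finset.prod_empty]
    exact Sup_one T
  | insert i J hi ih =>
    rw [Finset.prod_insert hi]
    by_cases h0 : m i = 0
    · rw [h0, pow_zero, one_mul]
      exact ih fun j hj => h j (Finset.mem_insert_of_mem hj)
    · exact Sup_os_pow_mul (h i (Finset.mem_insert_self _ _) h0)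
        (ih fun j hj => h j (Finset.mem_insert_of_mem hj)) _

theorem os_one : os 1 = 1 - PowerSeries.X := by
  rw [os, pow_one]

/-- an element of a closure is zero or begins with a generator -/
theorem closure_dec {G : Set ℕ} {y : ℕ} (hy : y ∈ AddSubmonoid.closure G) :
    y = 0 ∨ ∃ g ∈ G, ∃ y' ∈ AddSubmonoid.closure G, y = g + y' := by
  induction hy using AddSubmonoid.closure_induction with
  | mem x hx => exact Or.inr ⟨x, hx, 0, AddSubmonoid.zero_mem _, by omega⟩
  | zero => exact Or.inl rfl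
  | add x y hxc hyc hx hy =>
    rcases hx with rfl | ⟨g, hg, y', hy', rfl⟩
    · rw [zero_add]
      exact hy
    · exact Or.inr ⟨g, hg, y' + y, AddSubmonoid.add_mem _ hy' hyc, by omega⟩

/-- the first exponent -/
theorem exp_one {S : AddSubmonoid ℕ} {e : ℕ → ℤ} (he : IsExp S e) (h1 : 1 ∉ S) : e 1 = 1 := by
  have h := he 1 1 le_rfl
  rw [Finset.Icc_self, Finset.prod_singleton, Finset.prod_singleton] at h
  have h2 : (1 - PowerSeries.X) * Hs S * os 1 ^ (-(e 1)).toNat =
      os 1 ^ (-(e 1)).toNat * (os 1 ^ 1 * Hs S) := by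
    rw [os_one]
    ring
  have h3 : os 1 ^ (e 1).toNat = os 1 ^ (e 1).toNat * 1 := (mul_one _).symm
  rw [h2, h3, coeff_self one_pos, coeff_self one_pos, coeff_self one_pos,
    coeff_zero_os_mul one_pos, coeff_Hs_not h1, coeff_Hs_mem S.zero_mem, PowerSeries.coeff_one,
    if_neg one_ne_zero, PowerSeries.coeff_one, if_pos rfl] at h
  omega

open Classical in
/-- the exponents outside of the decomposable elements -/
theorem exp_key {S : AddSubmonoid ℕ} {e : ℕ → ℤ} (he : IsExp S e) (h1 : 1 ∉ S) {j : ℕ} (hj : 2 ≤ j)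
    (ih : ∀ i, 2 ≤ i → i < j → e i ≠ 0 → i ∈ S)
    (hjT : j ∉ AddSubmonoid.closure {i | i ∈ S ∧ 0 < i ∧ i < j}) :
    - e j = if j ∈ S then 1 else 0 := by
  obtain ⟨T, hT⟩ : ∃ T, T = AddSubmonoid.closure {i | i ∈ S ∧ 0 < i ∧ i < j} := ⟨_, rfl⟩
  rw [← hT] at hjT
  have hTS : T ≤ S := by
    rw [hT, AddSubmonoid.closure_le]
    exact fun x hx => hx.1
  have hmT : ∀ i, 2 ≤ i → i < j → e i ≠ 0 → i ∈ T := by
    intro i hi hij hne
    rw [hT]
    exact AddSubmonoid.subset_closure ⟨ih i hi hij hne, by omega, hij⟩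
  have hIcc : Icc 1 j = insert 1 (insert j (Ico 2 j)) := by
    ext i
    rw [Finset.mem_Icc, Finset.mem_insert, Finset.mem_insert, Finset.mem_Ico]
    omega
  have hprod : ∀ m : ℕ → ℕ, ∏ i ∈ Icc 1 j, os i ^ m i =
      os 1 ^ m 1 * (os j ^ m j * ∏ i ∈ Ico 2 j, os i ^ m i) := by
    intro m
    rw [hIcc, Finset.prod_insert, Finset.prod_insert]
    · rw [Finset.mem_Ico]
      omega
    · rw [Finset.mem_insert, Finset.mem_Ico]
      omega
  obtain ⟨Mm, hMm⟩ : ∃ Mm, Mm = ∏ i ∈ Ico 2 j, os i ^ (-(e i)).toNat := ⟨_, rfl⟩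
  obtain ⟨Q, hQ⟩ : ∃ Q, Q = ∏ i ∈ Ico 2 j, os i ^ (e i).toNat := ⟨_, rfl⟩
  have he1 := exp_one he h1
  have hmain : ∀ n ≤ j, PowerSeries.coeff n
      (os 1 * (os j ^ (-(e j)).toNat * (Mm * Hs S) - os j ^ (e j).toNat * Q)) = 0 := by
    intro n hn
    have h2 := he j n hn
    rw [hprod, hprod, he1, ← hMm, ← hQ] at h2
    have h3 : (1 - PowerSeries.X) * Hs S * (os 1 ^ (-(1 : ℤ)).toNat * (os j ^ (-(e j)).toNat * Mm)) =
        os 1 * (os j ^ (-(e j)).toNat * (Mm * Hs S)) := by
      rw [os_one]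
      have : (-(1 : ℤ)).toNat = 0 := rfl
      rw [this, pow_zero]
      ring
    have h4 : os 1 ^ (1 : ℤ).toNat * (os j ^ (e j).toNat * Q) = os 1 * (os j ^ (e j).toNat * Q) := by
      have : (1 : ℤ).toNat = 1 := rfl
      rw [this, pow_one]
    rw [h3, h4] at h2
    rw [mul_sub, map_sub, h2, sub_self]
  have hmain' : ∀ n ≤ j, PowerSeries.coeff n
      (os j ^ (-(e j)).toNat * (Mm * Hs S) - os j ^ (e j).toNat * Q) = 0 := by
    intro n
    induction n with
    | zero =>
      intro hn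
      have h2 := hmain 0 hn
      rwa [coeff_os_mul, if_neg (by omega), sub_zero] at h2
    | succ n ihn =>
      intro hn
      have h2 := hmain (n + 1) hn
      rwa [coeff_os_mul, if_pos (by omega), Nat.add_sub_cancel, ihn (by omega), sub_zero] at h2
  have h5 := hmain' j le_rfl
  have hMS : Sup T Mm := by
    rw [hMm]
    refine Sup_prod _ _ fun i hi hne => ?_
    rw [Finset.mem_Ico] at hi
    refine hmT i hi.1 hi.2 ?_
    rintro h0
    rw [h0] at hne
    exact hne rfl
  have hQS : Sup T Q := by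
    rw [hQ]
    refine Sup_prod _ _ fun i hi hne => ?_
    rw [Finset.mem_Ico] at hi
    refine hmT i hi.1 hi.2 ?_
    rintro h0
    rw [h0] at hne
    exact hne rfl
  have hM0 : PowerSeries.coeff 0 Mm = 1 := by
    rw [hMm]
    exact coeff_zero_prod _ (fun i hi => by rw [Finset.mem_Ico] at hi; omega) _
  have hQ0 : PowerSeries.coeff 0 Q = 1 := by
    rw [hQ]
    exact coeff_zero_prod _ (fun i hi => by rw [Finset.mem_Ico] at hi; omega) _
  have hMH0 : PowerSeries.coeff 0 (Mm * Hs S) = 1 := by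
    have h7 : PowerSeries.coeff 0 (Hs S) = 1 := coeff_Hs_mem S.zero_mem
    rw [PowerSeries.coeff_zero_eq_constantCoeff_apply] at hM0 h7 ⊢
    rw [map_mul, hM0, h7, one_mul]
  have hMHj : PowerSeries.coeff j (Mm * Hs S) = if j ∈ S then 1 else 0 := by
    rw [PowerSeries.coeff_mul, Finset.sum_eq_single (0, j)]
    · rw [hM0, one_mul]
      split_ifs with h6
      · exact coeff_Hs_mem h6
      · exact coeff_Hs_not h6
    · rintro ⟨u, v⟩ huv hne
      rw [Finset.HasAntidiagonal.mem_antidiagonal] at huv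
      simp only at huv ⊢
      by_cases hu : u ∈ T
      · by_cases hv : v ∈ S
        · exfalso
          have hu0 : u ≠ 0 := by
            rintro rfl
            apply hne
            rw [← huv, zero_add]
          have hvT : v ∈ T := by
            rcases Nat.eq_zero_or_pos v with rfl | hvp
            · exact T.zero_mem
            · rw [hT]
              exact AddSubmonoid.subset_closure ⟨hv, hvp, by omega⟩
          exact hjT (huv ▸ T.add_mem hu hvT)
        · rw [coeff_Hs_not hv, mul_zero]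
      · rw [hMS u hu, zero_mul]
    · intro h6
      exact absurd (Finset.HasAntidiagonal.mem_antidiagonal.2 (zero_add j)) h6
  rw [map_sub, coeff_self (by omega), coeff_self (by omega), hMH0, hQ0, hMHj, hQS j hjT] at h5
  split_ifs at h5 ⊢ with h6 <;> omega

/-- the exponents are supported in the semigroup, and are `-1` at the minimal generators -/
theorem exp_mem {S : AddSubmonoid ℕ} {e : ℕ → ℤ} (he : IsExp S e) (h1 : 1 ∉ S) (j : ℕ) (hj : 2 ≤ j)
    (hne : e j ≠ 0) : j ∈ S := by
  induction j using Nat.strong_induction_on with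
  | _ j ih =>
    by_contra hjS
    have hjT : j ∉ AddSubmonoid.closure {i | i ∈ S ∧ 0 < i ∧ i < j} := by
      intro h
      have : AddSubmonoid.closure {i | i ∈ S ∧ 0 < i ∧ i < j} ≤ S := by
        rw [AddSubmonoid.closure_le]
        exact fun x hx => hx.1
      exact hjS (this h)
    have h2 := exp_key he h1 hj (fun i hi hij hne' => ih i hij hi hne') hjT
    rw [if_neg hjS] at h2
    omega

theorem exp_atom {S : AddSubmonoid ℕ} {e : ℕ → ℤ} (he : IsExp S e) (h1 : 1 ∉ S) (g : ℕ)
    (hg : g ∈ atoms S) : e g = -1 := by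
  have hg2 : 2 ≤ g := by
    have h2 := hg.2.1
    have h3 : g ≠ 1 := by
      rintro rfl
      exact h1 hg.1
    omega
  have hjT : g ∉ AddSubmonoid.closure {i | i ∈ S ∧ 0 < i ∧ i < g} := by
    intro h
    rcases closure_dec h with h2 | ⟨i, ⟨hiS, hi0, hig⟩, y, hy, h2⟩
    · omega
    · have h3 : AddSubmonoid.closure {i | i ∈ S ∧ 0 < i ∧ i < g} ≤ S := by
        rw [AddSubmonoid.closure_le]
        exact fun x hx => hx.1
      rcases hg.2.2 i hiS y (h3 hy) h2.symm with h4 | h4
      · omega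
      · omega
  have h2 := exp_key he h1 hg2 (fun i hi hij hne' => exp_mem he h1 i hi hne') hjT
  rw [if_pos hg.1] at h2
  omega

/-- for `ℕ` all the exponents vanish -/
theorem exp_top {S : AddSubmonoid ℕ} {e : ℕ → ℤ} (he : IsExp S e) (h1 : 1 ∈ S) (j : ℕ) (hj : 1 ≤ j) :
    e j = 0 := by
  have hS : ∀ x, x ∈ S := fun x => by
    have := mul_mem' S h1 x
    rwa [mul_one] at this
  have hP : (1 - PowerSeries.X) * Hs S = 1 := by
    rw [← os_one]
    ext n
    rw [coeff_os_mul, coeff_Hs_mem (hS n), PowerSeries.coeff_one]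
    rcases n with _ | n
    · rw [if_neg (by omega), if_pos rfl, sub_zero]
    · rw [if_pos (by omega), if_neg (by omega), coeff_Hs_mem (hS _), sub_self]
  induction j using Nat.strong_induction_on with
  | _ j ih =>
    have h2 := he j j le_rfl
    rw [hP, one_mul] at h2
    have hIcc : Icc 1 j = insert j (Ico 1 j) := by
      ext i
      rw [Finset.mem_Icc, Finset.mem_insert, Finset.mem_Ico]
      omega
    have hprod : ∀ m : ℕ → ℕ, (∀ i, 1 ≤ i → i < j → m i = 0) →
        ∏ i ∈ Icc 1 j, os i ^ m i = os j ^ m j * 1 := by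
      intro m hm
      rw [hIcc, Finset.prod_insert (by rw [Finset.mem_Ico]; omega)]
      congr 1
      refine Finset.prod_eq_one fun i hi => ?_
      rw [Finset.mem_Ico] at hi
      rw [hm i hi.1 hi.2, pow_zero]
    rw [hprod _ (fun i hi hij => by rw [ih i hij hi]; rfl),
      hprod _ (fun i hi hij => by rw [ih i hij hi]; rfl), coeff_self (by omega),
      coeff_self (by omega), PowerSeries.coeff_one, if_neg (by omega), PowerSeries.coeff_one,
      if_pos rfl] at h2
    omega

/-- **The identity.** -/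
theorem exp_main {S : AddSubmonoid ℕ} {e : ℕ → ℤ} (he : IsExp S e) (h1 : 1 ∉ S) (G : Finset ℕ)
    (hG : ∀ g, g ∈ G ↔ g ∈ atoms S) {a b : ℕ} (hab : a ≠ b) (ha : 2 ≤ a) (hb : 2 ≤ b)
    (haG : a ∉ G) (hbG : b ∉ G) (hE : ∀ d, 2 ≤ d → e d ≠ 0 → d ∈ G ∨ d = a ∨ d = b) :
    (1 - PowerSeries.X) * Hs S * (∏ g ∈ G, os g) * (os a ^ (-(e a)).toNat * os b ^ (-(e b)).toNat) =
      (1 - PowerSeries.X) * (os a ^ (e a).toNat * os b ^ (e b).toNat) := by
  classical
  have hG2 : ∀ g ∈ G, 2 ≤ g := by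
    intro g hg
    have hg' := (hG g).1 hg
    have h2 := hg'.2.1
    have h3 : g ≠ 1 := by
      rintro rfl
      exact h1 hg'.1
    omega
  obtain ⟨B, hB⟩ : ∃ B, ∀ g ∈ G, g ≤ B := ⟨G.sup id, fun g hg => Finset.le_sup (f := id) hg⟩
  have hprod : ∀ (N : ℕ), B ≤ N → a ≤ N → b ≤ N → ∀ m : ℕ → ℕ,
      (∀ i, 2 ≤ i → i ∉ G → i ≠ a → i ≠ b → m i = 0) →
      ∏ i ∈ Icc 1 N, os i ^ m i = os 1 ^ m 1 * (os a ^ m a * (os b ^ m b * ∏ g ∈ G, os g ^ m g)) := by
    intro N hBN haN hbN m hm
    have hsub : insert 1 (insert a (insert b G)) ⊆ Icc 1 N := by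
      intro i hi
      rw [Finset.mem_insert, Finset.mem_insert, Finset.mem_insert] at hi
      rw [Finset.mem_Icc]
      rcases hi with rfl | rfl | rfl | hi
      · omega
      · omega
      · omega
      · have := hG2 i hi
        have := hB i hi
        omega
    rw [← Finset.prod_subset hsub, Finset.prod_insert, Finset.prod_insert, Finset.prod_insert hbG]
    · rw [Finset.mem_insert, not_or]
      exact ⟨hab, haG⟩
    · rw [Finset.mem_insert, Finset.mem_insert, not_or, not_or]
      exact ⟨by omega, by omega, fun h => by have := hG2 1 h; omega⟩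
    · intro i hi hni
      rw [Finset.mem_Icc] at hi
      rw [Finset.mem_insert, Finset.mem_insert, Finset.mem_insert, not_or, not_or, not_or] at hni
      rw [hm i (by omega) hni.2.2.2 hni.2.1 hni.2.2.1, pow_zero]
  have hz : ∀ i, 2 ≤ i → i ∉ G → i ≠ a → i ≠ b → e i = 0 := by
    intro i hi hiG hia hib
    by_contra h
    rcases hE i hi h with h2 | h2 | h2
    · exact hiG h2
    · exact hia h2
    · exact hib h2
  have he1 := exp_one he h1
  ext n
  have h2 := he (max n (max B (max a b))) n (le_max_left _ _)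
  rw [hprod _ (by omega) (by omega) (by omega) _ (fun i hi hiG hia hib => by
      rw [hz i hi hiG hia hib]; rfl),
    hprod _ (by omega) (by omega) (by omega) _ (fun i hi hiG hia hib => by
      rw [hz i hi hiG hia hib]; rfl), he1] at h2
  have h3 : ∏ g ∈ G, os g ^ (-(e g)).toNat = ∏ g ∈ G, os g := by
    refine Finset.prod_congr rfl fun g hg => ?_
    rw [exp_atom he h1 g ((hG g).1 hg), neg_neg]
    exact pow_one _
  have h4 : ∏ g ∈ G, os g ^ (e g).toNat = 1 := by
    refine Finset.prod_eq_one fun g hg => ?_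
    rw [exp_atom he h1 g ((hG g).1 hg)]
    exact pow_zero _
  rw [h3, h4] at h2
  have h5 : (-(1 : ℤ)).toNat = 0 := rfl
  have h6 : (1 : ℤ).toNat = 1 := rfl
  rw [h5, h6, pow_zero, pow_one, one_mul, mul_one] at h2
  have h7 : (1 - PowerSeries.X) * Hs S * (∏ g ∈ G, os g) *
      (os a ^ (-(e a)).toNat * os b ^ (-(e b)).toNat) =
      (1 - PowerSeries.X) * Hs S * (os a ^ (-(e a)).toNat * (os b ^ (-(e b)).toNat *
        ∏ g ∈ G, os g)) := by ring
  rw [h7, h2, os_one]

end Pool.Agent.X317.NSE
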