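import Mathlib
import Pool.Agent.X317.NSE.Series

/-!
# Roots of unity
-/

set_option autoImplicit false
set_option linter.all false

open Finset Pool.Agent.X317.NSQ

namespace Pool.Agent.X317.NSE

open Polynomial in
/-- `1 - X ^ j` -/
noncomputable def osP (j : ℕ) : ℤ[X] := 1 - X ^ j

theorem coe_osP (j : ℕ) : ((osP j : Polynomial ℤ) : PowerSeries ℤ) = os j := by
  unfold osP os
  push_cast
  rfl

open Polynomial in
/-- the geometric sum -/
noncomputable def gsP (j : ℕ) : ℤ[X] := ∑ i ∈ range j, X ^ i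

open Polynomial in
theorem osP_eq (j : ℕ) : osP j = (1 - X) * gsP j := by
  unfold osP gsP
  rw [mul_comm, geom_sum_mul_neg]

open Polynomial in
theorem eval_gsP (j : ℕ) : (gsP j).eval 1 = j := by
  unfold gsP
  rw [eval_finset_sum]
  simp

/-- the polynomial of a numerical semigroup -/
theorem exists_poly {S : AddSubmonoid ℕ} {c : ℕ} (hc : ∀ x, c ≤ x → x ∈ S) :
    ∃ p : Polynomial ℤ, ((p : Polynomial ℤ) : PowerSeries ℤ) = (1 - PowerSeries.X) * Hs S ∧
      p.eval 1 = 1 := by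
  obtain ⟨f, hf⟩ : ∃ f, f = (1 - PowerSeries.X) * Hs S := ⟨_, rfl⟩
  have h0 : PowerSeries.coeff 0 f = PowerSeries.coeff 0 (Hs S) := by
    rw [hf, ← os_one, coeff_os_mul, if_neg (by omega), sub_zero]
  have h1 : ∀ n, PowerSeries.coeff (n + 1) f =
      PowerSeries.coeff (n + 1) (Hs S) - PowerSeries.coeff n (Hs S) := by
    intro n
    rw [hf, ← os_one, coeff_os_mul, if_pos (by omega), Nat.add_sub_cancel]
  have hlarge : ∀ n, c < n → PowerSeries.coeff n f = 0 := by
    intro n hn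
    rcases n with _ | n
    · omega
    · rw [h1, coeff_Hs_mem (hc _ (by omega)), coeff_Hs_mem (hc _ (by omega)), sub_self]
  have hsum : ∀ m, ∑ i ∈ range (m + 1), PowerSeries.coeff i f = PowerSeries.coeff m (Hs S) := by
    intro m
    induction m with
    | zero => rw [Finset.sum_range_one, h0]
    | succ m ih => rw [Finset.sum_range_succ, ih, h1, add_sub_cancel]
  refine ⟨PowerSeries.trunc (c + 1) f, ?_, ?_⟩
  · rw [← hf]
    ext n
    rw [Polynomial.coeff_coe, PowerSeries.coeff_trunc]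
    split_ifs with h
    · rfl
    · exact (hlarge n (by omega)).symm
  · rw [Polynomial.eval_eq_sum_range' (PowerSeries.natDegree_trunc_lt f c)]
    have h2 : ∀ i ∈ range (c + 1), (PowerSeries.trunc (c + 1) f).coeff i * (1 : ℤ) ^ i =
        PowerSeries.coeff i f := by
      intro i hi
      rw [Finset.mem_range] at hi
      rw [one_pow, mul_one, PowerSeries.coeff_trunc, if_pos hi]
    rw [Finset.sum_congr rfl h2, hsum, coeff_Hs_mem (hc c le_rfl)]

/-- the polynomial identity -/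
theorem poly_id {S : AddSubmonoid ℕ} {G : Finset ℕ} {a b a1 b1 a2 b2 : ℕ} {p : Polynomial ℤ}
    (hp : ((p : Polynomial ℤ) : PowerSeries ℤ) = (1 - PowerSeries.X) * Hs S)
    (h : (1 - PowerSeries.X) * Hs S * (∏ g ∈ G, os g) * (os a ^ a1 * os b ^ b1) =
      (1 - PowerSeries.X) * (os a ^ a2 * os b ^ b2)) :
    p * (∏ g ∈ G, osP g) * (osP a ^ a1 * osP b ^ b1) =
      (1 - Polynomial.X) * (osP a ^ a2 * osP b ^ b2) := by
  apply Polynomial.coe_injective
  have h1 : ((∏ g ∈ G, osP g : Polynomial ℤ) : PowerSeries ℤ) = ∏ g ∈ G, os g := by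
    have h2 := map_prod (Polynomial.coeToPowerSeries.ringHom (R := ℤ)) (fun g => osP g) G
    have h3 : ∀ q : Polynomial ℤ, Polynomial.coeToPowerSeries.ringHom q = (q : PowerSeries ℤ) :=
      fun q => rfl
    rw [h3] at h2
    rw [h2]
    exact Finset.prod_congr rfl fun g _ => by rw [h3, coe_osP]
  rw [Polynomial.coe_mul, Polynomial.coe_mul, Polynomial.coe_mul, Polynomial.coe_mul,
    Polynomial.coe_mul, Polynomial.coe_pow, Polynomial.coe_pow, Polynomial.coe_pow,
    Polynomial.coe_pow, hp, h1, coe_osP, coe_osP, h, Polynomial.coe_sub, Polynomial.coe_one,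
    Polynomial.coe_X]

theorem aeval_osP (z : ℂ) (j : ℕ) : Polynomial.aeval z (osP j) = 1 - z ^ j := by
  unfold osP
  simp

/-- **Divisibility.** -/
theorem div_of {p : Polynomial ℤ} {G : Finset ℕ} {a b a1 b1 a2 b2 : ℕ}
    (h : p * (∏ g ∈ G, osP g) * (osP a ^ a1 * osP b ^ b1) =
      (1 - Polynomial.X) * (osP a ^ a2 * osP b ^ b2)) (d : ℕ) (hd : 2 ≤ d)
    (hL : d ∈ G ∨ (d = a ∧ 0 < a1) ∨ (d = b ∧ 0 < b1)) : (d ∣ a ∧ 0 < a2) ∨ (d ∣ b ∧ 0 < b2) := by
  have hz : IsPrimitiveRoot (Complex.exp (2 * Real.pi * Complex.I / d)) d :=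
    Complex.isPrimitiveRoot_exp d (by omega)
  obtain ⟨z, hz'⟩ : ∃ z, z = Complex.exp (2 * Real.pi * Complex.I / d) := ⟨_, rfl⟩
  rw [← hz'] at hz
  have h1 := congrArg (Polynomial.aeval z) h
  rw [map_mul, map_mul, map_mul, map_mul, map_mul, map_pow, map_pow, map_pow, map_pow, map_prod,
    aeval_osP, aeval_osP, map_sub, map_one, Polynomial.aeval_X] at h1
  have h0 : ∀ j, (1 : ℂ) - z ^ j = 0 ↔ d ∣ j := by
    intro j
    rw [sub_eq_zero, eq_comm]
    exact hz.pow_eq_one_iff_dvd j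
  have hleft : (Polynomial.aeval z) p * (∏ g ∈ G, (Polynomial.aeval z) (osP g)) *
      ((1 - z ^ a) ^ a1 * (1 - z ^ b) ^ b1) = 0 := by
    rcases hL with hL | ⟨rfl, hL⟩ | ⟨rfl, hL⟩
    · rw [Finset.prod_eq_zero hL, mul_zero, zero_mul]
      rw [aeval_osP, h0]
    · rw [(h0 _).2 (dvd_refl _), zero_pow (by omega), zero_mul, mul_zero]
    · rw [(h0 _).2 (dvd_refl _), zero_pow (by omega), mul_zero, mul_zero]
  rw [hleft] at h1
  rcases mul_eq_zero.1 h1.symm with h2 | h2
  · exfalso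
    rw [← pow_one z, h0] at h2
    have := Nat.le_of_dvd one_pos h2
    omega
  · rcases mul_eq_zero.1 h2 with h3 | h3
    · left
      rw [pow_eq_zero_iff', h0] at h3
      exact ⟨h3.1, by omega⟩
    · right
      rw [pow_eq_zero_iff', h0] at h3
      exact ⟨h3.1, by omega⟩

open Polynomial in
/-- **The number of the generators.** -/
theorem card_of {p : Polynomial ℤ} {G : Finset ℕ} {a b a2 b2 : ℕ} (hp : p.eval 1 = 1)
    (hG : ∀ g ∈ G, 0 < g) (ha : 0 < a) (hb : 0 < b)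
    (h : p * (∏ g ∈ G, osP g) = (1 - X) * (osP a ^ a2 * osP b ^ b2)) :
    G.card = a2 + b2 + 1 := by
  have h1 : (1 - X : ℤ[X]) ^ G.card * (p * ∏ g ∈ G, gsP g) =
      (1 - X) ^ (a2 + b2 + 1) * (gsP a ^ a2 * gsP b ^ b2) := by
    have h2 : ∏ g ∈ G, osP g = (1 - X) ^ G.card * ∏ g ∈ G, gsP g := by
      rw [← Finset.prod_const, ← Finset.prod_mul_distrib]
      exact Finset.prod_congr rfl fun g _ => osP_eq g
    rw [h2, osP_eq a, osP_eq b, mul_pow, mul_pow] at h
    calc (1 - X : ℤ[X]) ^ G.card * (p * ∏ g ∈ G, gsP g) =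
        p * ((1 - X) ^ G.card * ∏ g ∈ G, gsP g) := by ring
      _ = _ := h
      _ = _ := by ring
  have hne : (1 - X : ℤ[X]) ≠ 0 := by
    intro h2
    have := congrArg (Polynomial.eval 0) h2
    simp at this
  have hev : Polynomial.eval 1 (1 - X : ℤ[X]) = 0 := by simp
  have hL : Polynomial.eval 1 (p * ∏ g ∈ G, gsP g) ≠ 0 := by
    rw [Polynomial.eval_mul, hp, one_mul, Polynomial.eval_prod]
    refine Finset.prod_ne_zero_iff.2 fun g hg => ?_
    rw [eval_gsP]
    exact_mod_cast (hG g hg).ne'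
  have hR : Polynomial.eval 1 (gsP a ^ a2 * gsP b ^ b2) ≠ 0 := by
    rw [Polynomial.eval_mul, Polynomial.eval_pow, Polynomial.eval_pow, eval_gsP, eval_gsP]
    exact mul_ne_zero (pow_ne_zero _ (by exact_mod_cast ha.ne'))
      (pow_ne_zero _ (by exact_mod_cast hb.ne'))
  rcases lt_trichotomy G.card (a2 + b2 + 1) with h2 | h2 | h2
  · exfalso
    obtain ⟨k, hk⟩ := Nat.exists_eq_add_of_lt h2
    rw [hk, add_assoc, pow_add, mul_assoc] at h1
    have h3 := mul_left_cancel₀ (pow_ne_zero _ hne) h1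
    apply hL
    rw [h3, Polynomial.eval_mul, Polynomial.eval_pow, hev, zero_pow (by omega), zero_mul]
  · exact h2
  · exfalso
    obtain ⟨k, hk⟩ := Nat.exists_eq_add_of_lt h2
    rw [hk, add_assoc (a2 + b2 + 1), pow_add, mul_assoc] at h1
    have h3 := mul_left_cancel₀ (pow_ne_zero _ hne) h1
    apply hR
    rw [← h3, Polynomial.eval_mul, Polynomial.eval_pow, hev, zero_pow (by omega), zero_mul]

/-- **Semigroups with two incomparable exponents.** -/
theorem two {S : AddSubmonoid ℕ} {c : ℕ} (hc : ∀ x, c ≤ x → x ∈ S) {e : ℕ → ℤ} (he : IsExp S e)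
    {a b : ℕ} (hab : a ≠ b) (hE : {d : ℕ | 2 ≤ d ∧ e d ≠ 0 ∧ d ∉ atoms S} = {a, b})
    (h1 : ∀ t ∈ S, b ≠ a + t) (h2 : ∀ t ∈ S, a ≠ b + t) (hfin : (atoms S).Finite) : CIw S := by
  classical
  have haE : a ∈ {d : ℕ | 2 ≤ d ∧ e d ≠ 0 ∧ d ∉ atoms S} := by
    rw [hE]
    exact Or.inl rfl
  have hbE : b ∈ {d : ℕ | 2 ≤ d ∧ e d ≠ 0 ∧ d ∉ atoms S} := by
    rw [hE]
    exact Or.inr rfl
  obtain ⟨ha2, hea, haG⟩ := haE
  obtain ⟨hb2, heb, hbG⟩ := hbE
  have h1S : 1 ∉ S := fun h => hea (exp_top he h a (by omega))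
  have haS : a ∈ S := exp_mem he h1S a ha2 hea
  have hbS : b ∈ S := exp_mem he h1S b hb2 heb
  obtain ⟨G, hG⟩ : ∃ G : Finset ℕ, ∀ g, g ∈ G ↔ g ∈ atoms S :=
    ⟨hfin.toFinset, fun g => hfin.mem_toFinset⟩
  have hG0 : ∀ g ∈ G, 2 ≤ g := by
    intro g hg
    have hg' := (hG g).1 hg
    have h3 := hg'.2.1
    have h4 : g ≠ 1 := by
      rintro rfl
      exact h1S hg'.1
    omega
  have hEG : ∀ d, 2 ≤ d → e d ≠ 0 → d ∈ G ∨ d = a ∨ d = b := by
    intro d hd hed
    by_cases hdG : d ∈ G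
    · exact Or.inl hdG
    · right
      have : d ∈ {d : ℕ | 2 ≤ d ∧ e d ≠ 0 ∧ d ∉ atoms S} := ⟨hd, hed, fun h => hdG ((hG d).2 h)⟩
      rw [hE] at this
      exact this
  have hmain := exp_main he h1S G hG hab ha2 hb2 (fun h => haG ((hG a).1 h))
    (fun h => hbG ((hG b).1 h)) hEG
  obtain ⟨p, hp, hp1⟩ := exists_poly hc
  have hpoly := poly_id hp hmain
  have hnab : ¬ a ∣ b := by
    rintro ⟨k, hk⟩
    rcases k with _ | k
    · omega
    · exact h1 (k * a) (mul_mem' S haS k) (by rw [hk]; ring)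
  have hnba : ¬ b ∣ a := by
    rintro ⟨k, hk⟩
    rcases k with _ | k
    · omega
    · exact h2 (k * b) (mul_mem' S hbS k) (by rw [hk]; ring)
  have hea0 : 0 < e a := by
    by_contra h3
    rcases div_of hpoly a ha2 (Or.inr (Or.inl ⟨rfl, by omega⟩)) with h4 | h4
    · omega
    · exact hnab h4.1
  have heb0 : 0 < e b := by
    by_contra h3
    rcases div_of hpoly b hb2 (Or.inr (Or.inr ⟨rfl, by omega⟩)) with h4 | h4
    · exact hnba h4.1
    · omega
  obtain ⟨α, hα⟩ : ∃ α, α = (e a).toNat := ⟨_, rfl⟩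
  obtain ⟨β, hβ⟩ : ∃ β, β = (e b).toNat := ⟨_, rfl⟩
  have h5 : (-(e a)).toNat = 0 := by omega
  have h6 : (-(e b)).toNat = 0 := by omega
  rw [h5, h6, ← hα, ← hβ, pow_zero, pow_zero, mul_one, mul_one] at hpoly hmain
  have hdiv : ∀ g ∈ G, g ∣ a ∨ g ∣ b := by
    intro g hg
    have h7 : p * (∏ g ∈ G, osP g) * (osP a ^ 0 * osP b ^ 0) =
        (1 - Polynomial.X) * (osP a ^ α * osP b ^ β) := by
      rw [pow_zero, pow_zero, mul_one, mul_one, hpoly]
    rcases div_of h7 g (hG0 g hg) (Or.inl hg) with h4 | h4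
    · exact Or.inl h4.1
    · exact Or.inr h4.1
  have hcard : G.card = α + β + 1 :=
    card_of hp1 (fun g hg => by have := hG0 g hg; omega) (by omega) (by omega) hpoly
  have hH : Hs S * ∏ g ∈ G, os g = os a ^ α * os b ^ β := by
    have h7 : (1 - PowerSeries.X : PowerSeries ℤ) ≠ 0 := by
      rw [← os_one]
      exact os_ne_zero one_pos
    refine mul_left_cancel₀ h7 ?_
    rw [← hmain]
    ring
  -- the index type
  let n : ↥G → ℕ := fun g => g
  have hn : ∀ g, n g ∈ S := fun g => ((hG g).1 g.2).1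
  have hn0 : ∀ g, 0 < n g := fun g => by
    have := hG0 g g.2
    show 0 < (g : ℕ)
    omega
  have hinj : Function.Injective n := Subtype.val_injective
  have hrange : Set.range n = atoms S := by
    ext x
    constructor
    · rintro ⟨g, rfl⟩
      exact (hG g).1 g.2
    · intro hx
      exact ⟨⟨x, (hG x).2 hx⟩, rfl⟩
  have hprod : ∏ g, os (n g) = ∏ g ∈ G, os g := Finset.prod_coe_sort G os
  have hHn : Hs S * ∏ g, os (n g) = os a ^ α * os b ^ β := by rw [hprod, hH]
  have hHn' : Hs S * ∏ g, os (n g) = os b ^ β * os a ^ α := by rw [hHn, mul_comm]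
  have hcard' : Fintype.card ↥G = α + β + 1 := by rw [Fintype.card_coe, hcard]
  have hdivn : ∀ g : ↥G, n g ∣ a ∨ n g ∣ b := fun g => hdiv g g.2
  obtain ⟨M, hMa, hMb⟩ : ∃ M, a < M ∧ b < M := ⟨a + b + 1, by omega, by omega⟩
  obtain ⟨hcb, hcb'⟩ := counts hn hn0 hHn haS hbS h1 h2 (by omega) hMb
  obtain ⟨hca, hca'⟩ := counts hn hn0 hHn' hbS haS h2 h1 (by omega) hMa
  have hKa := card_div hn0 (show 0 < a by omega) hMa
  have hKb := card_div hn0 (show 0 < b by omega) hMb
  have hunion : Fintype.card ↥G ≤ (univ.filter fun g => n g ∣ a).card +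
      (univ.filter fun g => n g ∣ b).card := by
    have h7 : (univ : Finset ↥G) = (univ.filter fun g => n g ∣ a) ∪ (univ.filter fun g => n g ∣ b) := by
      ext g
      rw [Finset.mem_union, Finset.mem_filter, Finset.mem_filter]
      constructor
      · intro _
        rcases hdivn g with h8 | h8
        · exact Or.inl ⟨Finset.mem_univ _, h8⟩
        · exact Or.inr ⟨Finset.mem_univ _, h8⟩
      · intro _
        exact Finset.mem_univ _
    rw [← Finset.card_univ]
    conv_lhs => rw [h7]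
    exact Finset.card_union_le _ _
  have hor : (univ.filter fun g => n g ∣ a).card = α + 1 ∨
      (univ.filter fun g => n g ∣ b).card = β + 1 := by omega
  rcases hor with h7 | h7
  · obtain ⟨σ, hσ, hσc⟩ := core hn hn0 hHn (by omega) (by omega)
      (fun g hg => (hdivn g).resolve_left hg) hMb hcb hcb' h7 hcard'
    exact ⟨↥G, inferInstance, n, hinj, hrange, σ, hσ, hσc⟩
  · obtain ⟨σ, hσ, hσc⟩ := core hn hn0 hHn' (by omega) (by omega)
      (fun g hg => (hdivn g).resolve_right hg) hMa hca hca' h7 (by omega)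
    exact ⟨↥G, inferInstance, n, hinj, hrange, σ, hσ, hσc⟩

end Pool.Agent.X317.NSE
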